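import Mathlib
import Pool.Agent.H115R3.Filling.Main
import Pool.Agent.W664.Fill.Cal

/-! # Project CAP: round caps are minimal fillings in any genus. Definitions and statements -/

set_option autoImplicit false

namespace Pool.Agent.N979.CAP

open Real MeasureTheory Set Filter Topology Finset
open Pool.Agent.H115R3.Filling Pool.Agent.W664.Fill

/-- `1 - s² cos² ψ`. -/
noncomputable def DD (s ψ : ℝ) : ℝ := 1 - s ^ 2 * cos ψ ^ 2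

noncomputable def Ir (s : ℝ) : ℝ := ∫ ψ in (0 : ℝ)..π, cos ψ ^ 2 / √(DD s ψ)

noncomputable def It (s : ℝ) : ℝ := ∫ ψ in (0 : ℝ)..π, sin ψ ^ 2 / √(DD s ψ)

/-- Integrals. -/
structure S_INT : Prop where
  one : ∀ s : ℝ, 0 ≤ s → s < 1 → ∫ ψ in (0 : ℝ)..π, 1 / DD s ψ = π / √(1 - s ^ 2)
  cc : ∀ s : ℝ, 0 ≤ s → s < 1 →
    ∫ ψ in (0 : ℝ)..π, cos ψ ^ 2 / DD s ψ ^ 2 = π / (2 * √(1 - s ^ 2) ^ 3)
  ss : ∀ s : ℝ, 0 ≤ s → s < 1 →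
    ∫ ψ in (0 : ℝ)..π, sin ψ ^ 2 / DD s ψ ^ 2 = π / (2 * √(1 - s ^ 2))
  cD : ∀ s : ℝ, ∫ ψ in (0 : ℝ)..π, cos ψ ^ 2 * DD s ψ = π / 2 - 3 * π * s ^ 2 / 8
  sD : ∀ s : ℝ, ∫ ψ in (0 : ℝ)..π, sin ψ ^ 2 * DD s ψ = π / 2 - π * s ^ 2 / 8
  odd : ∀ F : ℝ → ℝ, ∫ ψ in (0 : ℝ)..π, sin ψ * cos ψ * F (cos ψ ^ 2) = 0
  circ : ∀ s θ : ℝ, 0 ≤ s → s < 1 →
    ∫ φ in (0 : ℝ)..(2 * π), s ^ 2 * sin (θ - φ) ^ 2 / DD s (θ - φ)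
      = 2 * π * (1 - √(1 - s ^ 2))

/-- Riemann sums of periodic functions converge uniformly. -/
def S_RIE : Prop := ∀ (s₁ : ℝ), 0 ≤ s₁ → ∀ f : ℝ → ℝ → ℝ,
  ContinuousOn (fun p : ℝ × ℝ => f p.1 p.2) (Set.univ ×ˢ Set.Icc 0 s₁) →
  (∀ ψ s, f (ψ + π) s = f ψ s) → ∀ ε > 0, ∃ N₀ : ℕ, ∀ N ≥ N₀, ∀ s ∈ Set.Icc 0 s₁, ∀ φ : ℝ,
    |π / N * ∑ j ∈ range N, f (π * j / N - φ) s - ∫ ψ in (0 : ℝ)..π, f ψ s| ≤ ε

/-- Bessel's inequality for four almost orthogonal sequences. -/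
def S_BES : Prop := ∀ (N : ℕ) (w ε : ℝ), 0 ≤ w → 0 ≤ ε →
  ∀ (lam a : ℕ → ℝ) (f : Fin 4 → ℕ → ℝ) (k D : Fin 4 → ℝ),
  (∀ j ∈ range N, 0 < lam j) → (∀ i, 0 ≤ k i) → (∀ i, k i * D i ≤ 1) →
  (∀ i l, |w * ∑ j ∈ range N, f i j * f l j / lam j - (if i = l then D i else 0)| ≤ ε) →
  ∑ i, k i * (w * ∑ j ∈ range N, f i j * a j) ^ 2 ≤
    w * ∑ j ∈ range N, lam j * a j ^ 2
      + ε * (∑ i, k i * |w * ∑ j ∈ range N, f i j * a j|) ^ 2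

/-- Polynomial lower bounds. -/
noncomputable def Qr (q : ℝ) : ℝ := 1 + q / 4 + 3 / 16 * q ^ 2 + 15 / 128 * q ^ 3
  + 105 / 1024 * q ^ 4 + 315 / 4096 * q ^ 5 + 1155 / 16384 * q ^ 6 + 15015 / 262144 * q ^ 7

noncomputable def Qt (q : ℝ) : ℝ := 1 - q / 4 + 3 / 16 * q ^ 2 - 15 / 128 * q ^ 3
  + 105 / 1024 * q ^ 4 - 315 / 4096 * q ^ 5 + 1155 / 16384 * q ^ 6 - 15015 / 262144 * q ^ 7

def S_LOW : Prop := ∀ s : ℝ, 0 ≤ s → s < 1 → ∀ q : ℝ, q = s ^ 2 / (2 - s ^ 2) →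
  √(1 + q) * (π / 2) * Qr q ≤ Ir s ∧ √(1 + q) * (π / 2) * Qt q ≤ It s

/-- Numerical inequalities. -/
structure S_NUM : Prop where
  ir : ∀ s : ℝ, 0 ≤ s → s ≤ 471 / 500 → π / 2 ≤ Ir s
  it : ∀ s : ℝ, 0 ≤ s → s ≤ 471 / 500 → π / 2 ≤ It s
  a : ∀ s : ℝ, 0 ≤ s → s ≤ 471 / 500 →
    π / √(1 - s ^ 2) * (π / 2 - 3 * π * s ^ 2 / 8) / (√(1 - s ^ 2) * Ir s) ^ 2 - 2 ≤ 25 / 9
  b : ∀ s : ℝ, 0 ≤ s → s ≤ 471 / 500 →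
    π / √(1 - s ^ 2) * (π / 2 - π * s ^ 2 / 8) / It s ^ 2 - 2 ≤ 36 / 25

/-- Numerical inequality for the radius. -/
def S_ZZZ : Prop := 1.75 ≤ ∫ ψ in (0 : ℝ)..π, cos ψ * arcsin (471 / 500 * cos ψ)

def S_RRR : Prop := ∀ s : ℝ, 0 < s → s ^ 2 ≤ 21 / 25 → 2 * s * sin (arcsin s / s) ≤ 1.7485

/-- The angles `π j / N - φ`. -/
noncomputable def ps (N : ℕ) (φ : ℝ) (j : ℕ) : ℝ := π * j / N - φ

noncomputable def sm (N : ℕ) (φ : ℝ) (f : ℝ → ℝ) (v : ℕ → ℝ) : ℝ :=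
  π / N * ∑ j ∈ range N, f (ps N φ j) * v j

noncomputable def xr (s ψ : ℝ) : ℝ := 2 / π * (1 - s ^ 2) * cos ψ / (DD s ψ * √(DD s ψ))

noncomputable def xt (s ψ : ℝ) : ℝ := 2 / π * √(1 - s ^ 2) * sin ψ / (DD s ψ * √(DD s ψ))

/-- Comass, idealised form. -/
def S_IDL : Prop := ∀ ε > 0, ∃ N₀ : ℕ, ∀ N ≥ N₀, ∀ s ∈ Set.Icc (0 : ℝ) (471 / 500), ∀ φ : ℝ,
  ∀ a b : ℕ → ℝ, (∀ j, a j ^ 2 + b j ^ 2 ≤ 1) → ∀ na nb ma mb la lb ka kb : ℝ,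
    na = sm N φ (xr s) a → nb = sm N φ (xr s) b → ma = sm N φ (xt s) a → mb = sm N φ (xt s) b →
    la = sm N φ cos a / (√(1 - s ^ 2) * Ir s) → lb = sm N φ cos b / (√(1 - s ^ 2) * Ir s) →
    ka = sm N φ sin a / It s → kb = sm N φ sin b / It s →
    (la * mb - lb * ma) + (na * kb - nb * ka) - (la * kb - lb * ka) ≤ 1 + ε

/-- Comass in polar coordinates. -/
def S_POL : Prop := ∀ ε > 0, ∃ N₀ : ℕ, ∀ N ≥ N₀, ∀ s ∈ Set.Icc (0 : ℝ) (471 / 500), ∀ φ : ℝ,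
  ∀ a b : ℕ → ℝ, (∀ j, a j ^ 2 + b j ^ 2 ≤ 1) → ∀ ra rb ta tb : ℝ,
    ∑ j ∈ range N, cos (ps N φ j) / √(DD s (ps N φ j))
      * (cos (ps N φ j) * ra + sin (ps N φ j) * ta) = ∑ j ∈ range N, cos (ps N φ j) * a j →
    ∑ j ∈ range N, sin (ps N φ j) / √(DD s (ps N φ j))
      * (cos (ps N φ j) * ra + sin (ps N φ j) * ta) = ∑ j ∈ range N, sin (ps N φ j) * a j →
    ∑ j ∈ range N, cos (ps N φ j) / √(DD s (ps N φ j))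
      * (cos (ps N φ j) * rb + sin (ps N φ j) * tb) = ∑ j ∈ range N, cos (ps N φ j) * b j →
    ∑ j ∈ range N, sin (ps N φ j) / √(DD s (ps N φ j))
      * (cos (ps N φ j) * rb + sin (ps N φ j) * tb) = ∑ j ∈ range N, sin (ps N φ j) * b j →
    π / N * ∑ j ∈ range N, 2 / π / (DD s (ps N φ j) * √(DD s (ps N φ j)))
        * (sin (ps N φ j) * (ra * b j - rb * a j)
          - (1 - s ^ 2) * cos (ps N φ j) * (ta * b j - tb * a j))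
      - (ra * tb - rb * ta) / √(1 - s ^ 2) ≤ 1 + ε

/-- The directions. -/
noncomputable def th (N j : ℕ) : ℝ := π * j / N

/-- `X · e_θ`. -/
noncomputable def dt (x y θ : ℝ) : ℝ := x * cos θ + y * sin θ

/-- Comass in cartesian coordinates. -/
def S_CAR : Prop := ∀ ε > 0, ∃ N₀ : ℕ, ∀ N ≥ N₀, ∀ x y : ℝ, x ^ 2 + y ^ 2 ≤ (471 / 500) ^ 2 →
  ∀ a b : ℕ → ℝ, (∀ j, a j ^ 2 + b j ^ 2 ≤ 1) → ∀ xa xb ya yb : ℝ,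
    ∑ j ∈ range N, cos (th N j) / √(1 - dt x y (th N j) ^ 2)
      * (cos (th N j) * xa + sin (th N j) * ya) = ∑ j ∈ range N, cos (th N j) * a j →
    ∑ j ∈ range N, sin (th N j) / √(1 - dt x y (th N j) ^ 2)
      * (cos (th N j) * xa + sin (th N j) * ya) = ∑ j ∈ range N, sin (th N j) * a j →
    ∑ j ∈ range N, cos (th N j) / √(1 - dt x y (th N j) ^ 2)
      * (cos (th N j) * xb + sin (th N j) * yb) = ∑ j ∈ range N, cos (th N j) * b j →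
    ∑ j ∈ range N, sin (th N j) / √(1 - dt x y (th N j) ^ 2)
      * (cos (th N j) * xb + sin (th N j) * yb) = ∑ j ∈ range N, sin (th N j) * b j →
    π / N * ∑ j ∈ range N,
        2 / π / ((1 - dt x y (th N j) ^ 2) * √(1 - dt x y (th N j) ^ 2))
        * ((sin (th N j) - y * dt x y (th N j)) * (xa * b j - xb * a j)
          - (cos (th N j) - x * dt x y (th N j)) * (ya * b j - yb * a j))
      - (xa * yb - xb * ya) / √(1 - x ^ 2 - y ^ 2) ≤ 1 + ε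

noncomputable def Z1 (N : ℕ) (x y : ℝ) : ℝ :=
  π / N * ∑ j ∈ range N, cos (th N j) * arcsin (dt x y (th N j))

noncomputable def Z2 (N : ℕ) (x y : ℝ) : ℝ :=
  π / N * ∑ j ∈ range N, sin (th N j) * arcsin (dt x y (th N j))

/-- Existence. -/
def S_EXI : Prop := ∀ N : ℕ, 2 ≤ N → ∀ s₁ : ℝ, 0 < s₁ → s₁ < 1 → ∀ z1 z2 : ℝ,
  (∀ φ, z1 * cos φ + z2 * sin φ
    < π / N * ∑ j ∈ range N, cos (th N j - φ) * arcsin (s₁ * cos (th N j - φ))) →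
  ∃ x y : ℝ, x ^ 2 + y ^ 2 < s₁ ^ 2 ∧ Z1 N x y = z1 ∧ Z2 N x y = z2

/-- Monotonicity. -/
def S_MON : Prop := ∀ N : ℕ, 2 ≤ N → ∀ x y x' y' : ℝ, x ^ 2 + y ^ 2 ≤ 1 → x' ^ 2 + y' ^ 2 ≤ 1 →
  π / 2 * ((x - x') ^ 2 + (y - y') ^ 2) ≤
    (Z1 N x y - Z1 N x' y') * (x - x') + (Z2 N x y - Z2 N x' y') * (y - y')

/-- Extension of the boundary functions. -/
def S_EXT : Prop := ∀ (M : Type) [MetricSpace M] (β : AddCircle (2 * π) → M) (s₀ : ℝ),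
  0 ≤ s₀ → s₀ ≤ 1 →
  (∀ s t : ℝ, 2 * arcsin (s₀ * |sin ((s - t) / 2)|) ≤
    dist (β (s : AddCircle (2 * π))) (β (t : AddCircle (2 * π)))) →
  ∃ G : ℝ → M → ℝ, (∀ θ x y, |G θ x - G θ y| ≤ dist x y) ∧ (∀ θ x, G (θ + π) x = -G θ x) ∧
    (∀ θ x, |G θ x| ≤ arcsin s₀) ∧ (∀ θ θ' x, |G θ x - G θ' x| ≤ s₀ * |θ - θ'|) ∧
    ∀ θ t : ℝ, G θ (β (t : AddCircle (2 * π))) = arcsin (s₀ * cos (θ - t))

/-- Integral bound for the first Fourier coefficient. -/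
def S_GIN : Prop := ∀ s₀ : ℝ, 0 < s₀ → s₀ < 1 → ∀ g : ℝ → ℝ, (∀ θ, g (θ + π) = -g θ) →
  (∀ θ, |g θ| ≤ arcsin s₀) → (∀ θ θ', |g θ - g θ'| ≤ s₀ * |θ - θ'|) →
  ∀ φ, ∫ θ in (0 : ℝ)..π, cos (θ - φ) * g θ ≤ 2 * s₀ * sin (arcsin s₀ / s₀)

/-- The statistic stays in the disc where the calibration is defined. -/
def S_BND : Prop := ∀ s₀ : ℝ, 0 < s₀ → s₀ ^ 2 ≤ 21 / 25 → ∃ N₀ : ℕ, ∀ N ≥ N₀, ∀ g : ℝ → ℝ,
  (∀ θ, g (θ + π) = -g θ) → (∀ θ, |g θ| ≤ arcsin s₀) →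
  (∀ θ θ', |g θ - g θ'| ≤ s₀ * |θ - θ'|) →
  ∀ φ, π / N * ∑ j ∈ range N, cos (th N j - φ) * g (th N j)
    < π / N * ∑ j ∈ range N, cos (th N j - φ) * arcsin (471 / 500 * cos (th N j - φ))

/-- Loop sums converge to the integral. -/
def S_FLX : Prop := ∀ (m : ℕ) (brk : Fin (m + 1) → ℝ), StrictMono brk → brk 0 = 0 →
  brk (Fin.last m) = 2 * π → ∀ α β β' : ℝ → ℝ, Continuous α → (∀ t, HasDerivAt β (β' t) t) →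
  Continuous β' → α (2 * π) = α 0 → β (2 * π) = β 0 →
  Tendsto (fun n : ℕ => loopSum brk α β n / 2) atTop (𝓝 (∫ t in (0 : ℝ)..(2 * π), α t * β' t))

noncomputable def hh (θ x y : ℝ) : ℝ :=
  2 / π * (x * sin θ - y * cos θ) / √(1 - dt x y θ ^ 2)

noncomputable def kk (x y : ℝ) : ℝ := 1 / (1 + √(1 - x ^ 2 - y ^ 2))

/-- Lipschitz constants. -/
def S_LIP : Prop := ∀ s₁ : ℝ, 0 < s₁ → s₁ < 1 → ∃ K : ℝ, 1 ≤ K ∧ ∀ x y x' y' : ℝ,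
  x ^ 2 + y ^ 2 ≤ s₁ ^ 2 → x' ^ 2 + y' ^ 2 ≤ s₁ ^ 2 →
  (∀ θ, |hh θ x y - hh θ x' y'| ≤ K * (|x - x'| + |y - y'|)) ∧
  |x * kk x y - x' * kk x' y'| ≤ K * (|x - x'| + |y - y'|) ∧
  |y * kk x y - y' * kk x' y'| ≤ K * (|x - x'| + |y - y'|)

/-- The pointwise inequality in a chart. -/
def S_PTW : Prop := ∀ ε > 0, ∃ N₀ : ℕ, ∀ N ≥ N₀, ∀ (X1 X2 : ℝ × ℝ → ℝ) (g : ℕ → ℝ × ℝ → ℝ)
  (p : ℝ × ℝ) (E F G : ℝ), 0 < E → 0 < E * G - F ^ 2 → DifferentiableAt ℝ X1 p →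
  DifferentiableAt ℝ X2 p → (∀ j, DifferentiableAt ℝ (g j) p) →
  (∀ j, ∀ v : ℝ × ℝ, (fderiv ℝ (g j) p v) ^ 2 ≤ E * v.1 ^ 2 + 2 * F * v.1 * v.2 + G * v.2 ^ 2) →
  (∀ q, X1 q ^ 2 + X2 q ^ 2 < (471 / 500) ^ 2) →
  (∀ q, Z1 N (X1 q) (X2 q) = π / N * ∑ j ∈ range N, cos (th N j) * g j q) →
  (∀ q, Z2 N (X1 q) (X2 q) = π / N * ∑ j ∈ range N, sin (th N j) * g j q) →
  ∑ j ∈ range N, π / N * jac (fun q => hh (th N j) (X1 q) (X2 q)) (g j) p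
    - jac (fun q => X1 q * kk (X1 q) (X2 q)) X2 p
    + jac (fun q => X2 q * kk (X1 q) (X2 q)) X1 p ≤ (1 + ε) * √(E * G - F ^ 2)

/-- The cap theorem. -/
def S_CAP : Prop := ∀ (M : Type) [MetricSpace M] (S : OrientedSurface M) (s₀ : ℝ), 0 < s₀ →
  s₀ ^ 2 ≤ 21 / 25 →
  (∀ s t : ℝ, 2 * arcsin (s₀ * |sin ((s - t) / 2)|) ≤
    dist (S.boundary (s : AddCircle (2 * π))) (S.boundary (t : AddCircle (2 * π)))) →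
  2 * π * (1 - √(1 - s₀ ^ 2)) ≤ S.area

end Pool.Agent.N979.CAP
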