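import Mathlib
import Pool.Agent.N979.CAP.Stm

/-! # Project CAP: assembly -/

set_option autoImplicit false

namespace Pool.Agent.N979.CAP

open Real MeasureTheory Set Filter Topology Finset
open Pool.Agent.H115R3.Filling Pool.Agent.W664.Fill

/-! ### Elementary -/

lemma jac_smul_smul {u w : ℝ × ℝ → ℝ} {p : ℝ × ℝ} (a b : ℝ) :
    jac (fun q => u q / a) (fun q => w q / b) p = jac u w p / (a * b) := by
  have h1 : ∀ (f : ℝ × ℝ → ℝ) (c : ℝ), fderiv ℝ (fun q => f q / c) p = c⁻¹ • fderiv ℝ f p := by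
    intro f c
    have : (fun q => f q / c) = c⁻¹ • f := by
      funext q; simp [div_eq_inv_mul]
    rw [this]
    have h := fderiv_const_smul_field (𝕜 := ℝ) (f := f) (c⁻¹ : ℝ)
    exact congrFun h p
  unfold jac
  rw [h1 u a, h1 w b]
  simp only [FunLike.coe_smul, Pi.smul_apply, smul_eq_mul]
  rw [mul_comm a b, div_eq_mul_inv, mul_inv]
  ring

lemma jac_smul_left {u w : ℝ × ℝ → ℝ} {p : ℝ × ℝ} (a : ℝ) :
    jac (fun q => u q / a) w p = jac u w p / a := by
  have := jac_smul_smul (u := u) (w := w) (p := p) a 1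
  simpa using this

lemma dt_circle (s t θ : ℝ) : dt (s * cos t) (s * sin t) θ = s * cos (θ - t) := by
  unfold dt
  rw [cos_sub]; ring

lemma lin_le (θ dx dy r : ℝ) (hr : 0 ≤ r) (h : dx ^ 2 + dy ^ 2 = r ^ 2) :
    |cos θ * dx + sin θ * dy| ≤ r := by
  apply abs_le_of_sq_le_sq _ hr
  nlinarith [sq_nonneg (cos θ * dy - sin θ * dx), sin_sq_add_cos_sq θ]

/-- Lipschitz bound of the point `X`. -/
lemma lip_X (hM : S_MON) {M : Type} [MetricSpace M] {G : ℝ → M → ℝ}
    (G1 : ∀ θ x y, |G θ x - G θ y| ≤ dist x y) {N : ℕ} (hN : 2 ≤ N) {X1 X2 : M → ℝ} {s₁ : ℝ}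
    (hs0 : 0 ≤ s₁) (hs1 : s₁ < 1)
    (hX : ∀ x, X1 x ^ 2 + X2 x ^ 2 < s₁ ^ 2)
    (hZ1 : ∀ x, Z1 N (X1 x) (X2 x) = π / N * ∑ j ∈ range N, cos (th N j) * G (th N j) x)
    (hZ2 : ∀ x, Z2 N (X1 x) (X2 x) = π / N * ∑ j ∈ range N, sin (th N j) * G (th N j) x)
    (x y : M) : |X1 x - X1 y| ≤ 2 * dist x y ∧ |X2 x - X2 y| ≤ 2 * dist x y := by
  have hN0 : (0 : ℝ) < N := by
    have : 0 < N := by omega
    exact_mod_cast this
  set dx := X1 x - X1 y with hdx
  set dy := X2 x - X2 y with hdy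
  set r := √(dx ^ 2 + dy ^ 2) with hr
  have hr2 : dx ^ 2 + dy ^ 2 = r ^ 2 := by rw [hr, Real.sq_sqrt (by positivity)]
  have hr0 : 0 ≤ r := Real.sqrt_nonneg _
  have h1 := hM N hN (X1 x) (X2 x) (X1 y) (X2 y) (by nlinarith [hX x]) (by nlinarith [hX y])
  rw [hZ1 x, hZ1 y, hZ2 x, hZ2 y, ← hdx, ← hdy] at h1
  have h2 : (π / N * ∑ j ∈ range N, cos (th N j) * G (th N j) x
        - π / N * ∑ j ∈ range N, cos (th N j) * G (th N j) y) * dx
      + (π / N * ∑ j ∈ range N, sin (th N j) * G (th N j) x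
        - π / N * ∑ j ∈ range N, sin (th N j) * G (th N j) y) * dy
      = π / N * ∑ j ∈ range N, (cos (th N j) * dx + sin (th N j) * dy)
          * (G (th N j) x - G (th N j) y) := by
    rw [← mul_sub, ← mul_sub, ← Finset.sum_sub_distrib, ← Finset.sum_sub_distrib, mul_assoc,
      mul_assoc, ← mul_add, Finset.sum_mul, Finset.sum_mul, ← Finset.sum_add_distrib]
    congr 1
    apply Finset.sum_congr rfl
    intro j _
    ring
  rw [h2] at h1
  have h3 : ∑ j ∈ range N, (cos (th N j) * dx + sin (th N j) * dy)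
      * (G (th N j) x - G (th N j) y) ≤ ∑ j ∈ range N, r * dist x y := by
    apply Finset.sum_le_sum
    intro j _
    refine (le_abs_self _).trans ?_
    rw [abs_mul]
    exact mul_le_mul (lin_le _ _ _ _ hr0 hr2) (G1 _ _ _) (abs_nonneg _) hr0
  rw [Finset.sum_const, card_range, nsmul_eq_mul] at h3
  have h4 : π / 2 * r ^ 2 ≤ π * (r * dist x y) := by
    rw [← hr2]
    refine h1.trans ?_
    calc π / N * ∑ j ∈ range N, (cos (th N j) * dx + sin (th N j) * dy)
          * (G (th N j) x - G (th N j) y)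
        ≤ π / N * (N * (r * dist x y)) :=
          mul_le_mul_of_nonneg_left h3 (by positivity)
      _ = π * (r * dist x y) := by field_simp
  have h5 : r ≤ 2 * dist x y := by
    rcases hr0.eq_or_lt with h | h
    · rw [← h]; positivity
    · have hp := Real.pi_pos
      have h6 : r * (π * r) ≤ r * (π * (2 * dist x y)) := by nlinarith
      have h7 := le_of_mul_le_mul_left h6 h
      exact le_of_mul_le_mul_left h7 hp
  constructor
  · refine le_trans ?_ h5
    apply abs_le_of_sq_le_sq _ hr0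
    rw [← hr2]; nlinarith [sq_nonneg dy]
  · refine le_trans ?_ h5
    apply abs_le_of_sq_le_sq _ hr0
    rw [← hr2]; nlinarith [sq_nonneg dx]

/-- Values of `X` on the boundary. -/
lemma bdry_X (hM : S_MON) {N : ℕ} (hN : 2 ≤ N) {s₀ t x y : ℝ} (hs : s₀ ^ 2 ≤ 1)
    (hxy : x ^ 2 + y ^ 2 ≤ 1)
    (h1 : Z1 N x y = π / N * ∑ j ∈ range N, cos (th N j) * arcsin (s₀ * cos (th N j - t)))
    (h2 : Z2 N x y = π / N * ∑ j ∈ range N, sin (th N j) * arcsin (s₀ * cos (th N j - t))) :
    x = s₀ * cos t ∧ y = s₀ * sin t := by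
  have hsq : (s₀ * cos t) ^ 2 + (s₀ * sin t) ^ 2 = s₀ ^ 2 := by
    have := sin_sq_add_cos_sq t
    nlinarith
  have h3 := hM N hN x y (s₀ * cos t) (s₀ * sin t) hxy (by rw [hsq]; exact hs)
  have e1 : Z1 N (s₀ * cos t) (s₀ * sin t)
      = π / N * ∑ j ∈ range N, cos (th N j) * arcsin (s₀ * cos (th N j - t)) := by
    unfold Z1
    simp only [dt_circle]
  have e2 : Z2 N (s₀ * cos t) (s₀ * sin t)
      = π / N * ∑ j ∈ range N, sin (th N j) * arcsin (s₀ * cos (th N j - t)) := by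
    unfold Z2
    simp only [dt_circle]
  rw [e1, e2, h1, h2, sub_self, sub_self, zero_mul, zero_mul, add_zero] at h3
  have hp := Real.pi_pos
  have h4 : (x - s₀ * cos t) ^ 2 + (y - s₀ * sin t) ^ 2 ≤ 0 := by
    by_contra h
    push Not at h
    have := mul_pos (half_pos hp) h
    linarith
  constructor
  · have : (x - s₀ * cos t) ^ 2 = 0 := by
      nlinarith [sq_nonneg (x - s₀ * cos t), sq_nonneg (y - s₀ * sin t)]
    have := pow_eq_zero_iff (two_ne_zero) |>.mp this
    linarith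
  · have : (y - s₀ * sin t) ^ 2 = 0 := by
      nlinarith [sq_nonneg (x - s₀ * cos t), sq_nonneg (y - s₀ * sin t)]
    have := pow_eq_zero_iff (two_ne_zero) |>.mp this
    linarith

/-! ### Flux integrals -/

lemma hasDerivAt_bv {s₀ : ℝ} (hs0 : 0 ≤ s₀) (hs1 : s₀ < 1) (θ t : ℝ) :
    HasDerivAt (fun t => arcsin (s₀ * cos (θ - t)))
      (s₀ * sin (θ - t) / √(DD s₀ (θ - t))) t := by
  have hlt : |s₀ * cos (θ - t)| < 1 := by
    rw [abs_mul, abs_of_nonneg hs0]
    have := abs_cos_le_one (θ - t)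
    nlinarith [abs_nonneg (cos (θ - t))]
  have hlt' := abs_lt.mp hlt
  have h1 : HasDerivAt (fun t => s₀ * cos (θ - t)) (s₀ * sin (θ - t)) t := by
    have h2 : HasDerivAt (fun t => θ - t) (-1) t := by
      simpa using (hasDerivAt_id t).const_sub θ
    have h3 := (h2.cos).const_mul s₀
    exact h3.congr_deriv (by ring)
  have h4 := (Real.hasDerivAt_arcsin (x := s₀ * cos (θ - t)) (by linarith [hlt'.1])
    (by linarith [hlt'.2])).comp t h1
  refine h4.congr_deriv ?_
  unfold DD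
  rw [mul_pow]
  ring

lemma DD_pos {s₀ : ℝ} (hs0 : 0 ≤ s₀) (hs1 : s₀ < 1) (ψ : ℝ) : 0 < DD s₀ ψ := by
  unfold DD
  have h1 : cos ψ ^ 2 ≤ 1 := cos_sq_le_one ψ
  have h2 : 0 ≤ cos ψ ^ 2 := sq_nonneg _
  have h3 : s₀ ^ 2 < 1 := by nlinarith
  nlinarith [sq_nonneg s₀]

lemma continuous_DD (s₀ θ : ℝ) : Continuous (fun t => DD s₀ (θ - t)) := by
  unfold DD; fun_prop

lemma hh_circle {s₀ : ℝ} (θ t : ℝ) :
    hh θ (s₀ * cos t) (s₀ * sin t) = 2 / π * (s₀ * sin (θ - t)) / √(DD s₀ (θ - t)) := by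
  unfold hh
  rw [dt_circle]
  unfold DD
  rw [mul_pow, sin_sub]
  congr 1
  ring

lemma kk_circle {s₀ : ℝ} (t : ℝ) :
    kk (s₀ * cos t) (s₀ * sin t) = 1 / (1 + √(1 - s₀ ^ 2)) := by
  unfold kk
  have : 1 - (s₀ * cos t) ^ 2 - (s₀ * sin t) ^ 2 = 1 - s₀ ^ 2 := by
    have := sin_sq_add_cos_sq t
    nlinarith
  rw [this]

lemma flux1 (hI : S_INT) {s₀ : ℝ} (hs0 : 0 ≤ s₀) (hs1 : s₀ < 1) (θ K : ℝ) :
    ∫ t in (0 : ℝ)..(2 * π), (2 / π * (s₀ * sin (θ - t)) / √(DD s₀ (θ - t)) / K)
      * (s₀ * sin (θ - t) / √(DD s₀ (θ - t))) = 4 * (1 - √(1 - s₀ ^ 2)) / K := by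
  have h1 : ∀ t, (2 / π * (s₀ * sin (θ - t)) / √(DD s₀ (θ - t)) / K)
      * (s₀ * sin (θ - t) / √(DD s₀ (θ - t)))
      = 2 / π / K * (s₀ ^ 2 * sin (θ - t) ^ 2 / DD s₀ (θ - t)) := by
    intro t
    have hD := DD_pos hs0 hs1 (θ - t)
    have h2 : √(DD s₀ (θ - t)) * √(DD s₀ (θ - t)) = DD s₀ (θ - t) :=
      Real.mul_self_sqrt hD.le
    have h3 : (2 / π * (s₀ * sin (θ - t)) / √(DD s₀ (θ - t)) / K)
      * (s₀ * sin (θ - t) / √(DD s₀ (θ - t)))
      = 2 / π / K * (s₀ ^ 2 * sin (θ - t) ^ 2) / (√(DD s₀ (θ - t)) * √(DD s₀ (θ - t))) := by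
      ring
    rw [h3, h2]; ring
  simp_rw [h1]
  rw [intervalIntegral.integral_const_mul, hI.circ s₀ θ hs0 hs1]
  have := Real.pi_pos
  field_simp
  ring

lemma flux2 {s₀ : ℝ} (a K : ℝ) :
    ∫ t in (0 : ℝ)..(2 * π), (s₀ * cos t * a / K) * (s₀ * cos t / 2)
      = s₀ ^ 2 * a / K * (π / 2) := by
  have h1 : ∀ t, (s₀ * cos t * a / K) * (s₀ * cos t / 2)
      = s₀ ^ 2 * a / K / 2 * cos t ^ 2 := by intro t; ring
  simp_rw [h1]
  rw [intervalIntegral.integral_const_mul, integral_cos_sq]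
  simp only [sin_zero, mul_zero, sub_zero, cos_two_pi, sin_two_pi, cos_zero]
  ring

lemma flux3 {s₀ : ℝ} (a K : ℝ) :
    ∫ t in (0 : ℝ)..(2 * π), (s₀ * sin t * a / K) * (-(s₀ * sin t) / 2)
      = -(s₀ ^ 2 * a / K * (π / 2)) := by
  have h1 : ∀ t, (s₀ * sin t * a / K) * (-(s₀ * sin t) / 2)
      = -(s₀ ^ 2 * a / K / 2) * sin t ^ 2 := by intro t; ring
  simp_rw [h1]
  rw [intervalIntegral.integral_const_mul, integral_sin_sq]
  simp only [sin_zero, zero_mul, sub_zero, cos_two_pi, sin_two_pi, cos_zero]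
  ring

/-! ### The main lemma for fixed `ε` -/

section Main

variable {M : Type} [MetricSpace M]

/-- coefficients -/
noncomputable def cf (N : ℕ) (K ε : ℝ) (i : ℕ) : ℝ :=
  if i < N then π / N * K / (1 + ε) else if i = N then -(K * 2 / (1 + ε)) else K * 2 / (1 + ε)

/-- first functions -/
noncomputable def fU (N : ℕ) (K : ℝ) (X1 X2 : M → ℝ) (i : ℕ) (x : M) : ℝ :=
  if i < N then hh (th N i) (X1 x) (X2 x) / K
  else if i = N then X1 x * kk (X1 x) (X2 x) / K else X2 x * kk (X1 x) (X2 x) / K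

/-- second functions -/
noncomputable def fW (N : ℕ) (G : ℝ → M → ℝ) (X1 X2 : M → ℝ) (i : ℕ) (x : M) : ℝ :=
  if i < N then G (th N i) x else if i = N then X2 x / 2 else X1 x / 2

theorem cap_eps (hI : S_INT) (hE : S_EXI) (hM : S_MON) (hX : S_EXT) (hB : S_BND) (hF : S_FLX)
    (hL : S_LIP) (hP : S_PTW) (S : OrientedSurface M) (s₀ : ℝ) (h0 : 0 < s₀)
    (h1 : s₀ ^ 2 ≤ 21 / 25)
    (hd : ∀ s t : ℝ, 2 * arcsin (s₀ * |sin ((s - t) / 2)|) ≤
      dist (S.boundary (s : AddCircle (2 * π))) (S.boundary (t : AddCircle (2 * π))))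
    (ε : ℝ) (hε : 0 < ε) : 2 * π * (1 - √(1 - s₀ ^ 2)) / (1 + ε) ≤ S.area := by
  have hpi := Real.pi_pos
  have hs1 : s₀ < 1 := by nlinarith
  obtain ⟨G, G1, G2, G3, G4, G5⟩ := hX M S.boundary s₀ h0.le hs1.le hd
  obtain ⟨K₀, hK1, hK⟩ := hL (471 / 500) (by norm_num) (by norm_num)
  obtain ⟨N₁, hN₁⟩ := hB s₀ h0 h1
  obtain ⟨N₂, hN₂⟩ := hP ε hε
  set N := max (max N₁ N₂) 2 with hN
  have hN2 : 2 ≤ N := le_max_right _ _
  have hNN1 : N₁ ≤ N := (le_max_left _ _).trans (le_max_left _ _)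
  have hNN2 : N₂ ≤ N := (le_max_right _ _).trans (le_max_left _ _)
  have hN0 : (0 : ℝ) < N := by
    have : 0 < N := by omega
    exact_mod_cast this
  -- the point X
  have hex : ∀ x : M, ∃ X : ℝ × ℝ, X.1 ^ 2 + X.2 ^ 2 < (471 / 500) ^ 2 ∧
      Z1 N X.1 X.2 = π / N * ∑ j ∈ range N, cos (th N j) * G (th N j) x ∧
      Z2 N X.1 X.2 = π / N * ∑ j ∈ range N, sin (th N j) * G (th N j) x := by
    intro x
    have h2 := hN₁ N hNN1 (fun θ => G θ x) (fun θ => G2 θ x) (fun θ => G3 θ x)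
      (fun θ θ' => G4 θ θ' x)
    obtain ⟨a, b, hab, e1, e2⟩ := hE N hN2 (471 / 500) (by norm_num) (by norm_num)
      (π / N * ∑ j ∈ range N, cos (th N j) * G (th N j) x)
      (π / N * ∑ j ∈ range N, sin (th N j) * G (th N j) x) (by
        intro φ
        have h3 := h2 φ
        refine lt_of_eq_of_lt ?_ h3
        rw [mul_assoc, mul_assoc, ← mul_add, Finset.sum_mul, Finset.sum_mul,
          ← Finset.sum_add_distrib]
        congr 1
        apply Finset.sum_congr rfl
        intro j _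
        rw [cos_sub]; ring)
    exact ⟨(a, b), hab, e1, e2⟩
  choose X hXd hXZ1 hXZ2 using hex
  set X1 : M → ℝ := fun x => (X x).1 with hX1
  set X2 : M → ℝ := fun x => (X x).2 with hX2
  have hlip := lip_X hM G1 hN2 (X1 := X1) (X2 := X2) (s₁ := 471 / 500) (by norm_num)
    (by norm_num) hXd hXZ1 hXZ2
  have hbd : ∀ t : ℝ, X1 (S.boundary (t : AddCircle (2 * π))) = s₀ * cos t ∧
      X2 (S.boundary (t : AddCircle (2 * π))) = s₀ * sin t := by
    intro t
    apply bdry_X hM hN2 (by nlinarith)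
    · have := hXd (S.boundary (t : AddCircle (2 * π)))
      simp only [hX1, hX2]
      nlinarith
    · rw [hXZ1]; simp only [G5]
    · rw [hXZ2]; simp only [G5]
  set K : ℝ := 4 * K₀ with hKK
  have hKpos : 0 < K := by positivity
  have hdisc : ∀ x, X1 x ^ 2 + X2 x ^ 2 ≤ (471 / 500) ^ 2 := fun x => (hXd x).le
  -- Lipschitz
  have hU : ∀ i x y, |fU N K X1 X2 i x - fU N K X1 X2 i y| ≤ dist x y := by
    intro i x y
    obtain ⟨l1, l2⟩ := hlip x y
    obtain ⟨k1, k2, k3⟩ := hK _ _ _ _ (hdisc x) (hdisc y)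
    have hb : K₀ * (|X1 x - X1 y| + |X2 x - X2 y|) ≤ K * dist x y := by
      have : |X1 x - X1 y| + |X2 x - X2 y| ≤ 4 * dist x y := by linarith
      calc K₀ * (|X1 x - X1 y| + |X2 x - X2 y|) ≤ K₀ * (4 * dist x y) :=
            mul_le_mul_of_nonneg_left this (by linarith)
        _ = K * dist x y := by rw [hKK]; ring
    unfold fU
    split_ifs
    · rw [← sub_div, abs_div, abs_of_pos hKpos, div_le_iff₀ hKpos, mul_comm (dist x y)]
      exact (k1 _).trans hb
    · rw [← sub_div, abs_div, abs_of_pos hKpos, div_le_iff₀ hKpos, mul_comm (dist x y)]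
      exact k2.trans hb
    · rw [← sub_div, abs_div, abs_of_pos hKpos, div_le_iff₀ hKpos, mul_comm (dist x y)]
      exact k3.trans hb
  have hW : ∀ i x y, |fW N G X1 X2 i x - fW N G X1 X2 i y| ≤ dist x y := by
    intro i x y
    obtain ⟨l1, l2⟩ := hlip x y
    unfold fW
    split_ifs
    · exact G1 _ _ _
    · rw [← sub_div, abs_div, abs_of_pos (by norm_num : (0 : ℝ) < 2), div_le_iff₀ (by norm_num)]
      linarith
    · rw [← sub_div, abs_div, abs_of_pos (by norm_num : (0 : ℝ) < 2), div_le_iff₀ (by norm_num)]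
      linarith
  apply area_ge_of_cal S (range (N + 2)) (cf N K ε) (fU N K X1 X2) (fW N G X1 X2) hU hW
  · -- pointwise
    intro k
    have hseg : ∀ (V : M → ℝ), (∀ x y, |V x - V y| ≤ dist x y) →
        SegLip (S.metric k) (fun p => V (S.chart k p)) := by
      intro V hV p hp q hq
      refine (hV _ _).trans ?_
      rw [dist_comm]
      exact S.dist_le k p hp q hq
    have hGd : ∀ᵐ x ∂(volume.restrict Sqo), ∀ j : ℕ,
        DifferentiableAt ℝ (fun p => G (th N j) (S.chart k p)) x := by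
      rw [ae_all_iff]
      intro j
      exact (hseg _ (G1 (th N j))).ae_diff
    have hX1d := (hseg (fun x => X1 x / 2) (by
      intro x y
      have := (hlip x y).1
      rw [← sub_div, abs_div, abs_of_pos (by norm_num : (0 : ℝ) < 2), div_le_iff₀ (by norm_num)]
      linarith)).ae_diff
    have hX2d := (hseg (fun x => X2 x / 2) (by
      intro x y
      have := (hlip x y).2
      rw [← sub_div, abs_div, abs_of_pos (by norm_num : (0 : ℝ) < 2), div_le_iff₀ (by norm_num)]
      linarith)).ae_diff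
    filter_upwards [hGd, hX1d, hX2d, self_mem_ae_restrict isOpen_Sqo.measurableSet] with
      p hp1 hp2 hp3 hpS
    have hd1 : DifferentiableAt ℝ (fun q => X1 (S.chart k q)) p := by
      have := hp2.const_mul 2
      refine this.congr_of_eventuallyEq (Eventually.of_forall fun q => ?_)
      ring
    have hd2 : DifferentiableAt ℝ (fun q => X2 (S.chart k q)) p := by
      have := hp3.const_mul 2
      refine this.congr_of_eventuallyEq (Eventually.of_forall fun q => ?_)
      ring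
    have hmain := hN₂ N hNN2 (fun q => X1 (S.chart k q)) (fun q => X2 (S.chart k q))
      (fun j q => G (th N j) (S.chart k q)) p ((S.metric k).E p) ((S.metric k).F p)
      ((S.metric k).G p) ((S.metric k).pos_E p (Sqo_sub hpS))
      ((S.metric k).pos_det p (Sqo_sub hpS)) hd1 hd2 hp1
      (fun j v => (hseg _ (G1 (th N j))).deriv_le hpS (hp1 j) v)
      (fun q => hXd _) (fun q => hXZ1 _) (fun q => hXZ2 _)
    rw [Finset.sum_range_succ, Finset.sum_range_succ]
    have e1 : ∑ i ∈ range N, cf N K ε i * jac (fun q => fU N K X1 X2 i (S.chart k q))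
        (fun q => fW N G X1 X2 i (S.chart k q)) p
        = (∑ j ∈ range N, π / N * jac (fun q => hh (th N j) (X1 (S.chart k q))
            (X2 (S.chart k q))) (fun q => G (th N j) (S.chart k q)) p) / (1 + ε) := by
      rw [Finset.sum_div]
      apply Finset.sum_congr rfl
      intro j hj
      have hj' := Finset.mem_range.mp hj
      simp only [cf, fU, fW, if_pos hj']
      rw [jac_smul_left K]
      field_simp
    have e2 : cf N K ε N * jac (fun q => fU N K X1 X2 N (S.chart k q))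
        (fun q => fW N G X1 X2 N (S.chart k q)) p
        = -(jac (fun q => X1 (S.chart k q) * kk (X1 (S.chart k q)) (X2 (S.chart k q)))
          (fun q => X2 (S.chart k q)) p) / (1 + ε) := by
      simp only [cf, fU, fW, lt_irrefl, if_false, if_true]
      rw [jac_smul_smul K 2]
      field_simp
    have e3 : cf N K ε (N + 1) * jac (fun q => fU N K X1 X2 (N + 1) (S.chart k q))
        (fun q => fW N G X1 X2 (N + 1) (S.chart k q)) p
        = jac (fun q => X2 (S.chart k q) * kk (X1 (S.chart k q)) (X2 (S.chart k q)))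
          (fun q => X1 (S.chart k q)) p / (1 + ε) := by
      have n1 : ¬ (N + 1 < N) := by omega
      have n2 : ¬ (N + 1 = N) := by omega
      simp only [cf, fU, fW, if_neg n1, if_neg n2]
      rw [jac_smul_smul K 2]
      field_simp
    rw [e1, e2, e3, ← add_div, ← add_div, div_le_iff₀ (by linarith)]
    linarith [hmain]
  · -- flux
    have hper : ((2 * π : ℝ) : AddCircle (2 * π)) = ((0 : ℝ) : AddCircle (2 * π)) := by
      rw [AddCircle.coe_period]; simp
    have hterm : ∀ i ∈ range (N + 2), Tendsto (fun n : ℕ => loopSum S.brk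
        (fun t => fU N K X1 X2 i (S.boundary (t : AddCircle (2 * π))))
        (fun t => fW N G X1 X2 i (S.boundary (t : AddCircle (2 * π)))) n / 2) atTop
        (𝓝 (if i < N then 4 * (1 - √(1 - s₀ ^ 2)) / K
          else if i = N then s₀ ^ 2 * (1 / (1 + √(1 - s₀ ^ 2))) / K * (π / 2)
          else -(s₀ ^ 2 * (1 / (1 + √(1 - s₀ ^ 2))) / K * (π / 2)))) := by
      intro i hi
      by_cases hiN : i < N
      · simp only [fU, fW, if_pos hiN, G5, (hbd _).1, (hbd _).2, hh_circle]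
        rw [← flux1 hI h0.le hs1 (th N i) K]
        have hc : Continuous fun t => √(DD s₀ (th N i - t)) := (continuous_DD _ _).sqrt
        have hne : ∀ t, √(DD s₀ (th N i - t)) ≠ 0 := fun t =>
          (Real.sqrt_pos.mpr (DD_pos h0.le hs1 _)).ne'
        apply hF S.arcs S.brk S.brk_strictMono S.brk_zero S.brk_last
        · apply Continuous.div_const
          exact Continuous.div (by fun_prop) hc hne
        · exact fun t => hasDerivAt_bv h0.le hs1 _ _
        · exact Continuous.div (by fun_prop) hc hne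
        · simp only [DD, sub_zero]
          rw [show th N i - 2 * π = th N i - 2 * π from rfl, sin_sub_two_pi, cos_sub_two_pi]
        · simp only [sub_zero]
          rw [cos_sub_two_pi]
      · by_cases hiN2 : i = N
        · subst hiN2
          simp only [fU, fW, lt_irrefl, if_false, if_true, (hbd _).1, (hbd _).2, kk_circle]
          rw [← flux2 (s₀ := s₀) (1 / (1 + √(1 - s₀ ^ 2))) K]
          apply hF S.arcs S.brk S.brk_strictMono S.brk_zero S.brk_last
          · fun_prop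
          · intro t
            have := ((hasDerivAt_sin t).const_mul s₀).div_const 2
            exact this
          · fun_prop
          · simp
          · simp
        · simp only [fU, fW, if_neg hiN, if_neg hiN2, (hbd _).1, (hbd _).2, kk_circle]
          rw [← flux3 (s₀ := s₀) (1 / (1 + √(1 - s₀ ^ 2))) K]
          apply hF S.arcs S.brk S.brk_strictMono S.brk_zero S.brk_last
          · fun_prop
          · intro t
            have := ((hasDerivAt_cos t).const_mul s₀).div_const 2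
            refine this.congr_deriv ?_
            ring
          · fun_prop
          · simp
          · simp
    have hsum := tendsto_finsetSum (range (N + 2))
      (fun i hi => (hterm i hi).const_mul (cf N K ε i))
    convert hsum using 2
    rw [Finset.sum_range_succ, Finset.sum_range_succ]
    have f1 : ∑ i ∈ range N, cf N K ε i * (if i < N then 4 * (1 - √(1 - s₀ ^ 2)) / K
          else if i = N then s₀ ^ 2 * (1 / (1 + √(1 - s₀ ^ 2))) / K * (π / 2)
          else -(s₀ ^ 2 * (1 / (1 + √(1 - s₀ ^ 2))) / K * (π / 2)))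
        = 4 * π * (1 - √(1 - s₀ ^ 2)) / (1 + ε) := by
      have : ∀ i ∈ range N, cf N K ε i * (if i < N then 4 * (1 - √(1 - s₀ ^ 2)) / K
          else if i = N then s₀ ^ 2 * (1 / (1 + √(1 - s₀ ^ 2))) / K * (π / 2)
          else -(s₀ ^ 2 * (1 / (1 + √(1 - s₀ ^ 2))) / K * (π / 2)))
          = 4 * π * (1 - √(1 - s₀ ^ 2)) / (1 + ε) / N := by
        intro i hi
        have hi' := Finset.mem_range.mp hi
        simp only [cf, if_pos hi']
        field_simp
      rw [Finset.sum_congr rfl this, Finset.sum_const, card_range, nsmul_eq_mul]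
      field_simp
    rw [f1]
    have n1 : ¬ (N + 1 < N) := by omega
    have n2 : ¬ (N + 1 = N) := by omega
    simp only [cf, lt_irrefl, if_false, if_true, if_neg n1, if_neg n2]
    have hc : √(1 - s₀ ^ 2) ^ 2 = 1 - s₀ ^ 2 := Real.sq_sqrt (by nlinarith)
    have hc0 : 0 ≤ √(1 - s₀ ^ 2) := Real.sqrt_nonneg _
    have hc1 : s₀ ^ 2 * (1 / (1 + √(1 - s₀ ^ 2))) = 1 - √(1 - s₀ ^ 2) := by
      field_simp
      nlinarith
    rw [hc1]
    field_simp
    ring

end Main

theorem cap (hI : S_INT) (hE : S_EXI) (hM : S_MON) (hX : S_EXT) (hB : S_BND) (hF : S_FLX)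
    (hL : S_LIP) (hP : S_PTW) : S_CAP := by
  intro M _ S s₀ h0 h1 hd
  have h := cap_eps hI hE hM hX hB hF hL hP S s₀ h0 h1 hd
  have h2 : Tendsto (fun ε : ℝ => 2 * π * (1 - √(1 - s₀ ^ 2)) / (1 + ε)) (𝓝[>] 0)
      (𝓝 (2 * π * (1 - √(1 - s₀ ^ 2)))) := by
    have : Tendsto (fun ε : ℝ => 2 * π * (1 - √(1 - s₀ ^ 2)) / (1 + ε)) (𝓝 0)
        (𝓝 (2 * π * (1 - √(1 - s₀ ^ 2)) / (1 + 0))) := by
      apply Tendsto.div tendsto_const_nhds (tendsto_const_nhds.add tendsto_id)
      norm_num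
    rw [add_zero, div_one] at this
    exact this.mono_left nhdsWithin_le_nhds
  refine le_of_tendsto h2 ?_
  filter_upwards [self_mem_nhdsWithin] with ε hε
  exact h ε hε

end Pool.Agent.N979.CAP
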