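import Mathlib
import Pool.Agent.N979.CAP.Stm

/-! # Project CAP: spherical form of the cap theorem, and round collars -/

set_option autoImplicit false

namespace Pool.Agent.N979.CAP

open Real MeasureTheory Set Filter Topology Finset
open Pool.Agent.H115R3.Filling Pool.Agent.W664.Fill

/-- The point of the unit sphere with polar distance `ρ` and longitude `φ`. -/
noncomputable def pt (ρ φ : ℝ) : EuclideanSpace ℝ (Fin 3) :=
  !₂[sin ρ * cos φ, sin ρ * sin φ, cos ρ]

lemma inner_pt (ρ φ ρ' φ' : ℝ) :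
    inner ℝ (pt ρ φ) (pt ρ' φ') = cos ρ * cos ρ' + sin ρ * sin ρ' * cos (φ - φ') := by
  simp [pt, PiLp.inner_apply, Fin.sum_univ_three, cos_sub]
  ring

lemma norm_pt (ρ φ : ℝ) : ‖pt ρ φ‖ = 1 := by
  have h : ‖pt ρ φ‖ ^ 2 = 1 := by
    rw [← real_inner_self_eq_norm_sq, inner_pt, sub_self, cos_zero]
    nlinarith [sin_sq_add_cos_sq ρ]
  have h0 := norm_nonneg (pt ρ φ)
  nlinarith

lemma angle_pt (ρ φ ρ' φ' : ℝ) : InnerProductGeometry.angle (pt ρ φ) (pt ρ' φ')
    = arccos (cos ρ * cos ρ' + sin ρ * sin ρ' * cos (φ - φ')) := by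
  unfold InnerProductGeometry.angle
  rw [norm_pt, norm_pt, inner_pt, mul_one, div_one]

lemma arccos_circle {s c δ : ℝ} (hs0 : 0 ≤ s) (hs1 : s ≤ 1) (hc : c ^ 2 = 1 - s ^ 2) :
    arccos (c * c + s * s * cos δ) = 2 * arcsin (s * |sin (δ / 2)|) := by
  have hw0 : 0 ≤ s * |sin (δ / 2)| := by positivity
  have hw1 : s * |sin (δ / 2)| ≤ 1 := by
    have := abs_sin_le_one (δ / 2)
    nlinarith [abs_nonneg (sin (δ / 2))]
  have h1 : cos (2 * arcsin (s * |sin (δ / 2)|)) = c * c + s * s * cos δ := by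
    rw [cos_two_mul, cos_sq', sin_arcsin (by linarith) hw1, mul_pow, sq_abs]
    have h2 : cos δ = 1 - 2 * sin (δ / 2) ^ 2 := by
      have h3 : cos δ = cos (2 * (δ / 2)) := by congr 1; ring
      rw [h3, cos_two_mul, cos_sq']; ring
    rw [h2]
    nlinarith
  rw [← h1, arccos_cos]
  · have := arcsin_nonneg.mpr hw0
    linarith
  · have := arcsin_le_pi_div_two (s * |sin (δ / 2)|)
    linarith

/-- The cap theorem in spherical terms. -/
theorem cap_sph (h : S_CAP) {M : Type} [MetricSpace M] (S : OrientedSurface M) (ρ₀ : ℝ)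
    (h0 : 0 < ρ₀) (h1 : ρ₀ ≤ π / 2) (h2 : 2 / 5 ≤ cos ρ₀)
    (hd : ∀ s t : ℝ, InnerProductGeometry.angle (pt ρ₀ s) (pt ρ₀ t) ≤
      dist (S.boundary (s : AddCircle (2 * π))) (S.boundary (t : AddCircle (2 * π)))) :
    2 * π * (1 - cos ρ₀) ≤ S.area := by
  have hpi := Real.pi_pos
  have hsin0 : 0 < sin ρ₀ := sin_pos_of_pos_of_lt_pi h0 (by linarith)
  have hsq : cos ρ₀ ^ 2 = 1 - sin ρ₀ ^ 2 := by rw [cos_sq']
  have hcos : √(1 - sin ρ₀ ^ 2) = cos ρ₀ := by
    rw [← hsq, Real.sqrt_sq (by linarith)]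
  have := h M S (sin ρ₀) hsin0 (by nlinarith) (by
    intro s t
    refine le_trans (le_of_eq ?_) (hd s t)
    rw [angle_pt, arccos_circle hsin0.le (sin_le_one _) hsq])
  rwa [hcos] at this

/-- `S` is obtained from the surface `S₀` by gluing a round collar: the part
`ρ₀ ≤ ρ ≤ π / 2` of the unit hemisphere (`ρ` is the distance from the pole).

* `emb`: the faces of `S₀` are faces of `S`;
* `area_collar`: the area of the other faces is the area `2π cos ρ₀` of the round collar;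
* `polar`: polar coordinates on the collar, with outer boundary the boundary of `S` and inner
  boundary the boundary of `S₀`;
* `dist_le`: two points of the collar that are joined by an arc of a great circle inside the
  collar have distance in `S` at most the length of this arc. -/
structure RoundCollar {M : Type} [MetricSpace M] (S S₀ : OrientedSurface M) (ρ₀ : ℝ) where
  emb : Fin S₀.faces ↪ Fin S.faces
  chart_emb : ∀ i, S.chart (emb i) = S₀.chart i
  metric_emb : ∀ i, S.metric (emb i) = S₀.metric i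
  area_collar : ∑ i ∈ Finset.univ.filter (fun i => i ∉ Set.range emb), (S.metric i).area
    = 2 * π * cos ρ₀
  polar : ℝ → ℝ → M
  outer : ∀ φ : ℝ, polar (π / 2) φ = S.boundary (φ : AddCircle (2 * π))
  inner : ∀ φ : ℝ, polar ρ₀ φ = S₀.boundary (φ : AddCircle (2 * π))
  dist_le : ∀ ρ ∈ Set.Icc ρ₀ (π / 2), ∀ ρ' ∈ Set.Icc ρ₀ (π / 2), ∀ φ φ' : ℝ,
    (∀ t ∈ Set.Icc (0 : ℝ) 1, ((1 - t) • pt ρ φ + t • pt ρ' φ').ofLp 2
      ≤ cos ρ₀ * ‖(1 - t) • pt ρ φ + t • pt ρ' φ'‖) →
    dist (polar ρ φ) (polar ρ' φ') ≤ InnerProductGeometry.angle (pt ρ φ) (pt ρ' φ')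

/-- Arcs from the equator to the visible points of the inner boundary are in the collar. -/
lemma arc_in_collar {ρ₀ φ s : ℝ} (hs : 0 ≤ sin ρ₀) (hc : 0 ≤ cos ρ₀) (hv : 0 ≤ cos (φ - s)) :
    ∀ t ∈ Set.Icc (0 : ℝ) 1, ((1 - t) • pt (π / 2) φ + t • pt ρ₀ s).ofLp 2
      ≤ cos ρ₀ * ‖(1 - t) • pt (π / 2) φ + t • pt ρ₀ s‖ := by
  intro t ht
  have h1 : ((1 - t) • pt (π / 2) φ + t • pt ρ₀ s).ofLp 2 = t * cos ρ₀ := by
    simp [pt]
  have h2 : t ≤ ‖(1 - t) • pt (π / 2) φ + t • pt ρ₀ s‖ := by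
    apply le_of_sq_le_sq _ (norm_nonneg _) 
    rw [← real_inner_self_eq_norm_sq, inner_add_left, inner_add_right, inner_add_right,
      inner_smul_left, inner_smul_right, inner_smul_left, inner_smul_right, inner_smul_left,
      inner_smul_right, inner_smul_left, inner_smul_right, inner_pt, inner_pt, inner_pt, inner_pt]
    simp only [conj_trivial, sub_self, cos_zero, cos_pi_div_two, sin_pi_div_two, zero_mul,
      mul_zero, one_mul, mul_one, zero_add]
    have h3 : cos (s - φ) = cos (φ - s) := by rw [← cos_neg]; congr 1; ring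
    rw [h3]
    have h4 : 0 ≤ t * (1 - t) * (sin ρ₀ * cos (φ - s)) :=
      mul_nonneg (mul_nonneg ht.1 (by linarith [ht.2])) (mul_nonneg hs hv)
    nlinarith [sq_nonneg (1 - t), sin_sq_add_cos_sq ρ₀, sq_nonneg t]
  rw [h1]
  calc t * cos ρ₀ ≤ ‖(1 - t) • pt (π / 2) φ + t • pt ρ₀ s‖ * cos ρ₀ :=
        mul_le_mul_of_nonneg_right h2 hc
    _ = _ := mul_comm _ _

/-- The inner surface satisfies the hypothesis of the cap theorem. -/
lemma inner_dist {M : Type} [MetricSpace M] {S S₀ : OrientedSurface M} {ρ₀ : ℝ}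
    (h0 : 0 < ρ₀) (h1 : ρ₀ ≤ π / 2) (hc : RoundCollar S S₀ ρ₀)
    (hS : ∀ φ : ℝ, π ≤ dist (S.boundary (φ : AddCircle (2 * π)))
      (S.boundary ((φ + π : ℝ) : AddCircle (2 * π)))) (s t : ℝ) :
    InnerProductGeometry.angle (pt ρ₀ s) (pt ρ₀ t) ≤
      dist (S₀.boundary (s : AddCircle (2 * π))) (S₀.boundary (t : AddCircle (2 * π))) := by
  have hpi := Real.pi_pos
  have hsin0 : 0 < sin ρ₀ := sin_pos_of_pos_of_lt_pi h0 (by linarith)
  have hcos0 : 0 ≤ cos ρ₀ := cos_nonneg_of_neg_pi_div_two_le_of_le (by linarith) h1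
  have hsq : cos ρ₀ ^ 2 = 1 - sin ρ₀ ^ 2 := by rw [cos_sq']
  -- the case `0 ≤ sin ((t - s) / 2)`
  have key : ∀ s t : ℝ, 0 ≤ sin ((t - s) / 2) →
      2 * arcsin (sin ρ₀ * sin ((t - s) / 2)) ≤
      dist (S₀.boundary (s : AddCircle (2 * π))) (S₀.boundary (t : AddCircle (2 * π))) := by
    intro s t hst
    set φ : ℝ := (s + t) / 2 - π / 2 with hφ
    have hv1 : cos (φ - s) = sin ((t - s) / 2) := by
      have : φ - s = (t - s) / 2 - π / 2 := by rw [hφ]; ring
      rw [this, cos_sub_pi_div_two]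
    have hv2 : cos (φ + π - t) = sin ((t - s) / 2) := by
      have : φ + π - t = -((t - s) / 2 - π / 2) := by rw [hφ]; ring
      rw [this, cos_neg, cos_sub_pi_div_two]
    have hm : ρ₀ ∈ Set.Icc ρ₀ (π / 2) := ⟨le_rfl, h1⟩
    have hm' : π / 2 ∈ Set.Icc ρ₀ (π / 2) := ⟨h1, le_rfl⟩
    have d1 := hc.dist_le (π / 2) hm' ρ₀ hm φ s
      (arc_in_collar hsin0.le hcos0 (by rw [hv1]; exact hst))
    have d2 := hc.dist_le (π / 2) hm' ρ₀ hm (φ + π) t
      (arc_in_collar hsin0.le hcos0 (by rw [hv2]; exact hst))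
    rw [hc.outer, hc.inner, angle_pt, cos_pi_div_two, sin_pi_div_two, zero_mul, zero_add, one_mul,
      hv1] at d1
    rw [hc.outer, hc.inner, angle_pt, cos_pi_div_two, sin_pi_div_two, zero_mul, zero_add, one_mul,
      hv2] at d2
    have d3 := hS φ
    have d5 : dist (S.boundary (φ : AddCircle (2 * π)))
        (S.boundary ((φ + π : ℝ) : AddCircle (2 * π)))
        ≤ dist (S.boundary (φ : AddCircle (2 * π))) (S₀.boundary (s : AddCircle (2 * π)))
        + dist (S₀.boundary (s : AddCircle (2 * π))) (S₀.boundary (t : AddCircle (2 * π)))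
        + dist (S.boundary ((φ + π : ℝ) : AddCircle (2 * π)))
          (S₀.boundary (t : AddCircle (2 * π))) := by
      have := dist_triangle4 (S.boundary (φ : AddCircle (2 * π)))
        (S₀.boundary (s : AddCircle (2 * π))) (S₀.boundary (t : AddCircle (2 * π)))
        (S.boundary ((φ + π : ℝ) : AddCircle (2 * π)))
      rwa [dist_comm (S₀.boundary (t : AddCircle (2 * π)))
        (S.boundary ((φ + π : ℝ) : AddCircle (2 * π)))] at this
    rw [arccos_eq_pi_div_two_sub_arcsin] at d1 d2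
    linarith
  rw [angle_pt, arccos_circle hsin0.le (sin_le_one _) hsq]
  rcases le_total 0 (sin ((s - t) / 2)) with h | h
  · rw [abs_of_nonneg h, dist_comm]
    exact key t s h
  · rw [abs_of_nonpos h]
    have h' : -sin ((s - t) / 2) = sin ((t - s) / 2) := by
      rw [← sin_neg]; congr 1; ring
    rw [h']
    exact key s t (by rw [← h']; linarith)

/-- No shortcuts: antipodal boundary points have distance at least `π`. -/
lemma anti_of_noShortcut {M : Type} [MetricSpace M] {S : OrientedSurface M}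
    (hS : S.NoShortcut) (φ : ℝ) : π ≤ dist (S.boundary (φ : AddCircle (2 * π)))
      (S.boundary ((φ + π : ℝ) : AddCircle (2 * π))) := by
  have hpi := Real.pi_pos
  have d3 := hS (φ : AddCircle (2 * π)) ((φ + π : ℝ) : AddCircle (2 * π))
  have d4 : dist (φ : AddCircle (2 * π)) ((φ + π : ℝ) : AddCircle (2 * π)) = π := by
    rw [dist_eq_rho, show φ - (φ + π) = -π by ring, rho_neg, rho_eq_self hpi.le le_rfl]
  rwa [d4] at d3

/-- The filling area conjecture for fillings with a round collar. -/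
theorem collar_anti (h : S_CAP) {M : Type} [MetricSpace M] (S S₀ : OrientedSurface M) (ρ₀ : ℝ)
    (h0 : 0 < ρ₀) (h1 : ρ₀ ≤ π / 2) (h2 : 2 / 5 ≤ cos ρ₀) (hc : RoundCollar S S₀ ρ₀)
    (hS : ∀ φ : ℝ, π ≤ dist (S.boundary (φ : AddCircle (2 * π)))
      (S.boundary ((φ + π : ℝ) : AddCircle (2 * π)))) : 2 * π ≤ S.area := by
  have h3 := cap_sph h S₀ ρ₀ h0 h1 h2 (inner_dist h0 h1 hc hS)
  have h4 : S.area = S₀.area + 2 * π * cos ρ₀ := by
    unfold OrientedSurface.area
    rw [← hc.area_collar, ← Finset.sum_filter_add_sum_filter_not Finset.univ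
      (fun i => i ∈ Set.range hc.emb)]
    congr 1
    have : Finset.univ.filter (fun i => i ∈ Set.range hc.emb)
        = Finset.univ.map hc.emb := by
      ext i
      simp
    rw [this, Finset.sum_map]
    exact Finset.sum_congr rfl fun i _ => by rw [hc.metric_emb]
  rw [h4]
  nlinarith

end Pool.Agent.N979.CAP
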