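import Mathlib
import Pool.Agent.N979.CAP.Asm
import Pool.Agent.N979.CAP.Col
import Pool.Agent.N262.CAP_INT
import Pool.Agent.N438.CAP_RIE
import Pool.Agent.N438.CAP_BES
import Pool.Agent.N878.CAP_LOW
import Pool.Agent.N407.CAP_NUM
import Pool.Agent.N383.CAP_ZZZ
import Pool.Agent.N340.CAP_RRR
import Pool.Agent.N221.CAP_IDL
import Pool.Agent.N771.CAP_POL
import Pool.Agent.N402.CAP_CAR
import Pool.Agent.N42.CAP_PTW
import Pool.Agent.N222.CAP_EXI
import Pool.Agent.N495.CAP_MON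
import Pool.Agent.N46.CAP_EXT
import Pool.Agent.N749.CAP_GIN
import Pool.Agent.N999.CAP_BND
import Pool.Agent.N296.CAP_FLX
import Pool.Agent.N717.CAP_LIP

/-! # Project CAP: the theorems -/

set_option autoImplicit false

namespace Pool.Agent.N979.CAP

theorem sNUM : S_NUM := Pool.Agent.N407.CAP_NUM.main Pool.Agent.N878.CAP_LOW.main

theorem sPTW : S_PTW :=
  Pool.Agent.N42.CAP.main (Pool.Agent.N402.CAP_CAR.main (Pool.Agent.N771.CAP_POL.main
    Pool.Agent.N262.CAP_INT.main Pool.Agent.N438.CAPRIE.main sNUM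
    (Pool.Agent.N221.CAP_IDL.main Pool.Agent.N262.CAP_INT.main Pool.Agent.N438.CAPRIE.main
      Pool.Agent.N438.CAPBES.main sNUM)))

theorem sBND : S_BND :=
  Pool.Agent.N999.CAPBND.main Pool.Agent.N438.CAPRIE.main Pool.Agent.N749.CAP.main
    (Pool.Agent.N383.CAP_ZZZ.main Pool.Agent.N878.CAP_LOW.main) Pool.Agent.N340.CAP.RRR.main

theorem sCAP : S_CAP :=
  cap Pool.Agent.N262.CAP_INT.main Pool.Agent.N222.CAP_EXI.main Pool.Agent.N495.CAPMON.main
    Pool.Agent.N46.CAP_EXT.main sBND Pool.Agent.N296.CAPFLX.main Pool.Agent.N717.CAP_LIP.main sPTW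

end Pool.Agent.N979.CAP
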